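import Pool.Agent.H37.CTN.Stmts2
import Pool.Agent.H85.CTN.RKX

/-!
# Row LTF of the board ctn
-/

set_option autoImplicit false

namespace Pool.CND

theorem ltf_not_dvd {p q m : ℕ} (hp : p.Prime) (hq : p ∣ q) (hq0 : 1 ≤ q) (hm : 1 ≤ m) :
    ¬ p ∣ q ^ m - 1 := by
  intro h
  have h1 : p ∣ q ^ m := hq.trans (dvd_pow_self q (by omega))
  have h2 : 1 ≤ q ^ m := Nat.one_le_pow _ _ hq0
  have h3 : p ∣ q ^ m - (q ^ m - 1) := Nat.dvd_sub h1 h
  rw [show q ^ m - (q ^ m - 1) = 1 by omega] at h3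
  exact hp.one_lt.ne' (Nat.dvd_one.1 h3)

theorem ltf_lcm_not_dvd {p : ℕ} (hp : p.Prime) {ι : Type} (S : Finset ι) (g : ι → ℕ)
    (h : ∀ i ∈ S, ¬ p ∣ g i) : ¬ p ∣ S.lcm g := by
  intro h1
  have h2 : S.lcm g ∣ ∏ i ∈ S, g i := Finset.lcm_dvd fun i hi => Finset.dvd_prod_of_mem g hi
  obtain ⟨i, hi, h3⟩ := (Prime.dvd_finsetProd_iff hp.prime g).1 (h1.trans h2)
  exact h i hi h3

theorem ltf_lcm {p n : ℕ} (hp : p.Prime) (s r : Fin n → ℕ) (h : ∀ i, ¬ p ∣ r i) :
    (Finset.univ : Finset (Fin n)).lcm (fun i => p ^ s i * r i) =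
      p ^ (Finset.univ : Finset (Fin n)).sup s * (Finset.univ : Finset (Fin n)).lcm r := by
  apply Nat.dvd_antisymm
  · exact Finset.lcm_dvd fun i hi => mul_dvd_mul
      (pow_dvd_pow p (Finset.le_sup (f := s) hi)) (Finset.dvd_lcm hi)
  · have hc : Nat.Coprime (p ^ (Finset.univ : Finset (Fin n)).sup s)
        ((Finset.univ : Finset (Fin n)).lcm r) :=
      Nat.Coprime.pow_left _ ((Nat.Prime.coprime_iff_not_dvd hp).2
        (ltf_lcm_not_dvd hp _ r fun i _ => h i))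
    apply Nat.Coprime.mul_dvd_of_dvd_of_dvd hc
    · rcases Finset.eq_empty_or_nonempty (Finset.univ : Finset (Fin n)) with h0 | h0
      · rw [h0]
        simp
      · obtain ⟨i, hi, he⟩ := Finset.exists_mem_eq_sup _ h0 s
        rw [he]
        exact (Dvd.intro _ rfl).trans (Finset.dvd_lcm (f := fun i => p ^ s i * r i) hi)
    · exact Finset.lcm_dvd fun i hi =>
        (Dvd.intro_left _ rfl).trans (Finset.dvd_lcm (f := fun i => p ^ s i * r i) hi)

theorem ltf_thm (hPRF : S_PRF) (hNFN : S_NFN) (hT62 : S_T62) (hRKP : S_RKP) (hHC1 : S_HC1)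
    (hHC2 : S_HC2) (hHC3 : S_HC3) (hHC5 : S_HC5) : S_LTF := by
  intro p n k _ _ hchar G _ r lo hi hp hr
  have key : ∀ i, Finite (G i) ∧ HasCover k (G i) ∧ ∃ s : ℕ, NG k (G i) = p ^ s * r i ∧
      lo i ≤ s ∧ s ≤ hi i ∧ ¬ p ∣ r i := by
    intro i
    rcases hr i with ⟨F, _, f, q, N, C, _, hf, hq, hF, hC, ⟨e⟩, hcase⟩ |
      ⟨F, _, f, q, σ, C, _, hf, hq, hF, hσ, hC, ⟨e⟩, hri, hlo, hhi⟩ |
      ⟨hp2, F, _, hcF, m, q, φ, hm, hq, hF, hφ, ⟨e⟩, hri, hlo, hhi⟩
    · have hpq : p ∣ q := hq ▸ dvd_pow_self p (by omega)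
      have hq0 : 1 ≤ q := hq ▸ Nat.one_le_pow _ _ hp.one_lt.le
      have hfin : Finite F :=
        Nat.finite_of_card_ne_zero (by rw [hF, hq]; exact pow_ne_zero _ hp.ne_zero)
      have hfin2 : Finite (Matrix.SpecialLinearGroup (Fin N) F ⧸ C) := inferInstance
      refine ⟨Finite.of_equiv _ e.symm.toEquiv, ?_⟩
      rcases hcase with ⟨hN, hri, hlo, hhi⟩ | ⟨hN, hp2, hri, hlo, hhi⟩ | ⟨hN, hri, hlo, hhi⟩
      · subst hN
        refine ⟨rkp_hc e (hHC1 p k F f q hp hchar hf hq hF C), 0, ?_, by omega, by omega, ?_⟩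
        · rw [pow_zero, one_mul]
          exact rkx_one hRKP p k (G i) (r i) hp
            (Or.inl ⟨F, _, f, q, C, _, hf, hq, hF, hC, ⟨e⟩, hri⟩)
        · rw [hri]
          intro h
          have h1 : p ∣ q ^ 1 - 1 := by
            rw [pow_one]
            exact h.trans (Nat.div_dvd_of_dvd (Nat.gcd_dvd_right _ _))
          exact ltf_not_dvd hp hpq hq0 le_rfl h1
      · subst hN
        refine ⟨rkp_hc e (hHC5 p k F f q 3 hp hchar hf hq hF le_rfl C), f, ?_, by omega,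
          by omega, ?_⟩
        · rw [cng_thm k _ _ ⟨e⟩, hT62 p k F f q hp hp2 hchar hf hq hF C hC, hri, hq]
        · rw [hri]
          exact ltf_not_dvd hp hpq hq0 (by norm_num)
      · obtain ⟨s, hs, hNG⟩ := hNFN p k F f q N hp hchar hf hq hF hN C hC
        refine ⟨rkp_hc e (hHC5 p k F f q N hp hchar hf hq hF hN C), s, ?_, by omega, by omega, ?_⟩
        · rw [cng_thm k _ _ ⟨e⟩, hNG, hri]
        · rw [hri]
          exact ltf_lcm_not_dvd hp _ _ fun m hm => ltf_not_dvd hp hpq hq0 (Finset.mem_Icc.1 hm).1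
    · have hpq : p ∣ q := hq ▸ dvd_pow_self p (by omega)
      have hq0 : 1 ≤ q := hq ▸ Nat.one_le_pow _ _ hp.one_lt.le
      have hfin : Finite F :=
        Nat.finite_of_card_ne_zero (by
          rw [hF, hq]; exact pow_ne_zero _ (pow_ne_zero _ hp.ne_zero))
      have hfin' : Finite (SU3 σ) := inferInstance
      refine ⟨Finite.of_equiv _ e.symm.toEquiv,
        rkp_hc e (hHC2 p k F f q σ hp hchar hf hq hF hσ C), f, ?_, by omega, by omega, ?_⟩
      · rw [hri, ← hq]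
        exact rkx_one hRKP p k (G i) (q * (q - 1)) hp
          (Or.inr (Or.inl ⟨F, _, f, q, σ, C, _, hf, hq, hF, hσ, hC, ⟨e⟩, rfl⟩))
      · rw [hri]
        have := ltf_not_dvd hp hpq hq0 (le_refl 1)
        rwa [pow_one] at this
    · subst hp2
      have hfin : Finite F := Nat.finite_of_card_ne_zero (by rw [hF, hq]; positivity)
      have hfin' : Finite (Sz φ) := inferInstance
      have hpq : 2 ∣ q := hq ▸ dvd_pow_self 2 (by omega)
      have hq0 : 1 ≤ q := hq ▸ Nat.one_le_pow _ _ (by norm_num)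
      refine ⟨Finite.of_equiv _ e.symm.toEquiv,
        rkp_hc e (hHC3 m q k F φ hchar hm hq hF hφ), m, ?_, by omega, by omega, ?_⟩
      · rw [hri]
        exact rkx_one hRKP 2 k (G i) (2 ^ m * (q - 1)) hp
          (Or.inr (Or.inr ⟨rfl, F, _, hcF, m, q, φ, hm, hq, hF, hφ, ⟨e⟩, rfl⟩))
      · rw [hri]
        have := ltf_not_dvd hp hpq hq0 (le_refl 1)
        rwa [pow_one] at this
  have hfin : ∀ i, Finite (G i) := fun i => (key i).1
  choose s hs using fun i => (key i).2.2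
  refine ⟨(Finset.univ : Finset (Fin n)).sup s, ?_, fun i =>
    (hs i).2.1.trans (Finset.le_sup (f := s) (Finset.mem_univ i)), ?_⟩
  · rw [hPRF p n k G hp fun i => (key i).2.1, ← ltf_lcm hp s r fun i => (hs i).2.2.2]
    congr 1
    funext i
    exact (hs i).1
  · rcases Finset.eq_empty_or_nonempty (Finset.univ : Finset (Fin n)) with h0 | h0
    · left
      rw [h0]
      simp
    · right
      obtain ⟨i, _, he⟩ := Finset.exists_mem_eq_sup _ h0 s
      exact ⟨i, he ▸ (hs i).2.2.1⟩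

end Pool.CND
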